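import Pool.Agent.H18.TreeRect

set_option autoImplicit false

namespace Pool.Agent.Results.MP_a176d3_co.NotRealizable

open Pool.Agent.H18.TreeRect

/-- Vertices of `T_k` are words over `Fin k` of length `< k`; the children of `v` are the words
`a :: v`, and the path from the root to `l` consists of the suffixes of `l`.  For `k ≥ 19` the
hypergraph `H_k` is not realizable by points and axis-parallel rectangles. -/
theorem result (k : ℕ) (hk : 19 ≤ k) :
    ¬ ∃ p : {l : List (Fin k) // l.length < k} → ℝ × ℝ, Function.Injective p ∧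
      (∀ v : {l : List (Fin k) // l.length < k}, v.1.length < k - 1 →
        ∃ a b c d : ℝ, a < b ∧ c < d ∧
          ∀ z, p z ∈ Set.Ioo a b ×ˢ Set.Ioo c d ↔ ∃ i, z.1 = i :: v.1) ∧
      (∀ l : {l : List (Fin k) // l.length < k}, l.1.length = k - 1 →
        ∃ a b c d : ℝ, a < b ∧ c < d ∧
          ∀ z, p z ∈ Set.Ioo a b ×ˢ Set.Ioo c d ↔ z.1 <:+ l.1) := by
  classical
  rintro ⟨p, hp, hs, hl⟩
  let q : List (Fin k) → ℝ × ℝ := fun l => if h : l.length < k then p ⟨l, h⟩ else 0
  have hq : ∀ l (h : l.length < k), q l = p ⟨l, h⟩ := fun l h => dif_pos h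
  let X : List (Fin k) → ℝ ×ₗ ℝ := fun l => toLex (q l)
  let Y : List (Fin k) → ℝ ×ₗ ℝ := fun l => toLex (q l).swap
  have hX : ∀ u w, X u ≤ X w → (q u).1 ≤ (q w).1 := fun u w h => Prod.Lex.monotone_fst _ _ h
  have hY : ∀ u w, Y u ≤ Y w → (q u).2 ≤ (q w).2 := fun u w h => Prod.Lex.monotone_fst _ _ h
  have clos : ∀ (A : List (Fin k) → Prop) (a b c d : ℝ), (∀ u, A u → u.length < k) →
      (∀ z : {l : List (Fin k) // l.length < k}, p z ∈ Set.Ioo a b ×ˢ Set.Ioo c d ↔ A z.1) →
      ∀ z, z.length < k → In X A z → In Y A z → A z := by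
    rintro A a b c d hA h z hz ⟨u1, u2, a1, a2, b1, b2⟩ ⟨u3, u4, a3, a4, b3, b4⟩
    have m1 := (h ⟨u1, hA _ a1⟩).mpr a1
    have m2 := (h ⟨u2, hA _ a2⟩).mpr a2
    have m3 := (h ⟨u3, hA _ a3⟩).mpr a3
    have m4 := (h ⟨u4, hA _ a4⟩).mpr a4
    rw [← hq] at m1 m2 m3 m4
    apply (h ⟨z, hz⟩).mp
    rw [← hq]
    exact ⟨⟨m1.1.1.trans_le (hX _ _ b1), (hX _ _ b2).trans_lt m2.1.2⟩,
      ⟨m3.2.1.trans_le (hY _ _ b3), (hY _ _ b4).trans_lt m4.2.2⟩⟩
  refine not_real (X := X) (Y := Y) ⟨?_, ?_, ?_, ?_⟩ hk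
  · intro u w hu hw h
    have : q u = q w := toLex.injective h
    rw [hq u hu, hq w hw] at this
    exact congrArg Subtype.val (hp this)
  · intro u w hu hw h
    have : q u = q w := Prod.swap_injective (toLex.injective h)
    rw [hq u hu, hq w hw] at this
    exact congrArg Subtype.val (hp this)
  · intro w z hw hz h1 h2
    let l : List (Fin k) := List.replicate (k - 1 - w.length) ⟨0, by omega⟩ ++ w
    have hlen : l.length = k - 1 := by simp [l]; omega
    have hwl : w <:+ l := List.suffix_append _ _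
    obtain ⟨a, b, c, d, -, -, h⟩ := hl ⟨l, by omega⟩ hlen
    have := clos (· <:+ l) a b c d (fun u hu => by have := hu.length_le; omega) h z hz
      (h1.mono fun u hu => hu.trans hwl) (h2.mono fun u hu => hu.trans hwl)
    exact List.suffix_or_suffix_of_suffix this hwl
  · intro v z hv hz h1 h2
    obtain ⟨a, b, c, d, -, -, h⟩ := hs ⟨v, by omega⟩ (by simp only; omega)
    exact clos (fun u => ∃ a, u = a :: v) a b c d (by rintro u ⟨a, rfl⟩; simpa using hv) h z hz h1 h2

end Pool.Agent.Results.MP_a176d3_co.NotRealizable
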